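import Pool.Agent.ZPK.StmtsL
import Pool.Agent.Helper27_ZPK.LGB

/-!
# Squad ZPK, row LGR (helper45): elements with small logarithm are close to roots of unity.
-/

set_option autoImplicit false

namespace Pool.Agent.ZPK.H45

open Pool.Agent.ZPT Pool.Agent.ZP3 Pool.Agent.ZPK.H27 Filter Topology

noncomputable section

/-- `‖Log (1 + y) - y‖ ≤ ‖y‖ (‖y‖/th)`. -/
theorem log_sub {p : ℕ} (hp : p.Prime) (hp5 : 5 ≤ p) (thb : THBStmt) (K : Type) [NormedField K]
    [CharZero K] [IsUltrametricDist K] (hE : Ext p K) (Log : K → K) (hL : IsLog p Log) (x : K)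
    (hx : ‖x‖ < th p) : ‖Log (1 + x) - x‖ ≤ ‖x‖ * (‖x‖ / th p) := by
  obtain ⟨-, h2, h3, -, -⟩ := thb p hp hp5
  have hx1 : ‖x‖ < 1 := hx.trans h3
  have hr : ‖x‖ / th p < 1 := (div_lt_one h2).2 hx
  have hr0 : 0 ≤ ‖x‖ / th p := by positivity
  refine tail K Log hL x hx1 _ (by positivity) fun n => ?_
  have hN : 0 < ‖((n + 2 : ℕ) : K)‖ := norm_pos_iff.2 (by exact_mod_cast (by omega : n + 2 ≠ 0))
  rw [div_le_iff₀ hN]
  have h6 := th_bd hp hp5 thb K hE (n + 2) (by omega)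
  have h7 : ‖x‖ ^ (n + 2) = ‖x‖ * (‖x‖ / th p) ^ (n + 1) * th p ^ (n + 1) := by
    rw [mul_assoc, ← mul_pow, div_mul_cancel₀ _ h2.ne']
    ring
  rw [h7]
  have h8 : (‖x‖ / th p) ^ (n + 1) ≤ ‖x‖ / th p := pow_le_of_le_one hr0 hr.le (by omega)
  exact mul_le_mul (mul_le_mul_of_nonneg_left h8 (norm_nonneg _)) h6 (by positivity)
    (by positivity)

theorem nrm_one_add {K : Type} [NormedField K] [IsUltrametricDist K] (x : K) (hx : ‖x‖ < 1) :
    ‖1 + x‖ = 1 := by
  rw [IsUltrametricDist.norm_add_eq_max_of_norm_ne_norm (by rw [norm_one]; exact hx.ne'), norm_one,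
    max_eq_left hx.le]

theorem one_add_ne {K : Type} [NormedField K] [IsUltrametricDist K] (x : K) (hx : ‖x‖ < 1) :
    1 + x ≠ 0 := by
  intro h
  have := nrm_one_add x hx
  rw [h, norm_zero] at this
  exact zero_ne_one this

/-- The approximations. -/
def app {K : Type} [NormedField K] (Log : K → K) (l : K) : ℕ → K
  | 0 => 0
  | n + 1 => (1 + app Log l n) * (1 + (l - Log (1 + app Log l n))) - 1

theorem app_spec {p : ℕ} (hp : p.Prime) (hp5 : 5 ≤ p) (thb : THBStmt) (K : Type) [NormedField K]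
    [CharZero K] [IsUltrametricDist K] (hE : Ext p K) (Log : K → K) (hL : IsLog p Log) (l : K)
    (hl : ‖l‖ < th p) (n : ℕ) :
    ‖app Log l n‖ ≤ ‖l‖ ∧ ‖l - Log (1 + app Log l n)‖ ≤ ‖l‖ * (‖l‖ / th p) ^ n := by
  obtain ⟨-, h2, h3, -, -⟩ := thb p hp hp5
  have hr : ‖l‖ / th p < 1 := (div_lt_one h2).2 hl
  have hr0 : 0 ≤ ‖l‖ / th p := by positivity
  induction n with
  | zero =>
    simp only [app, add_zero, norm_zero, log_one Log hL, sub_zero, pow_zero, mul_one, le_refl,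
      and_true]
    exact norm_nonneg _
  | succ n ih =>
    obtain ⟨i1, i2⟩ := ih
    set d := app Log l n with hd
    set e := l - Log (1 + d) with he
    have h4 : ‖e‖ ≤ ‖l‖ := i2.trans (mul_le_of_le_one_right (norm_nonneg _)
      (pow_le_one₀ hr0 hr.le))
    have hd1 : ‖d‖ < 1 := i1.trans_lt (hl.trans h3)
    have he1 : ‖e‖ < 1 := h4.trans_lt (hl.trans h3)
    have h5 : app Log l (n + 1) = (1 + d) * (1 + e) - 1 := rfl
    constructor
    · rw [h5]
      have h6 : (1 + d) * (1 + e) - 1 = d + (1 + d) * e := by ring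
      rw [h6]
      refine (IsUltrametricDist.norm_add_le_max _ _).trans (max_le i1 ?_)
      rw [norm_mul, nrm_one_add d hd1, one_mul]
      exact h4
    · have h7 : 1 + app Log l (n + 1) = (1 + d) * (1 + e) := by rw [h5]; ring
      rw [h7, hL.mul _ _ (one_add_ne d hd1) (one_add_ne e he1)]
      have h8 : l - (Log (1 + d) + Log (1 + e)) = -(Log (1 + e) - e) := by
        rw [he]; ring
      rw [h8, norm_neg]
      refine (log_sub hp hp5 thb K hE Log hL e (h4.trans_lt hl)).trans ?_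
      rw [pow_succ, ← mul_assoc]
      refine mul_le_mul i2 ?_ (by positivity) (by positivity)
      exact div_le_div_of_nonneg_right h4 h2.le

theorem ex_log {p : ℕ} (hp : p.Prime) (hp5 : 5 ≤ p) (thb : THBStmt) (K : Type) [NormedField K]
    [CharZero K] [IsUltrametricDist K] [CompleteSpace K] (hE : Ext p K) (Log : K → K)
    (hL : IsLog p Log) (h4 : ∀ x : K, ‖x‖ < th p → ‖Log (1 + x)‖ = ‖x‖)
    (h20 : ∀ x y : K, x ≠ 0 → y ≠ 0 → Log (x / y) = Log x - Log y) (l : K)
    (hl : ‖l‖ < th p) : ∃ d : K, ‖d‖ ≤ ‖l‖ ∧ Log (1 + d) = l := by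
  obtain ⟨-, h2, h3, -, -⟩ := thb p hp hp5
  have hr : ‖l‖ / th p < 1 := (div_lt_one h2).2 hl
  have hr0 : 0 ≤ ‖l‖ / th p := by positivity
  have hs := app_spec hp hp5 thb K hE Log hL l hl
  have hl1 : ‖l‖ < 1 := hl.trans h3
  have hc : CauchySeq (app Log l) := by
    refine cauchySeq_of_le_geometric (‖l‖ / th p) ‖l‖ hr fun n => ?_
    obtain ⟨i1, i2⟩ := hs n
    rw [dist_comm, dist_eq_norm]
    have h5 : app Log l (n + 1) - app Log l n =
        (1 + app Log l n) * (l - Log (1 + app Log l n)) := by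
      have : app Log l (n + 1) = (1 + app Log l n) * (1 + (l - Log (1 + app Log l n))) - 1 := rfl
      rw [this]
      ring
    rw [h5, norm_mul, nrm_one_add _ (i1.trans_lt hl1), one_mul]
    exact i2
  obtain ⟨d, hd⟩ := cauchySeq_tendsto_of_complete hc
  have hdl : ‖d‖ ≤ ‖l‖ := le_of_tendsto hd.norm (Eventually.of_forall fun n => (hs n).1)
  refine ⟨d, hdl, ?_⟩
  have hd1 : ‖d‖ < 1 := hdl.trans_lt hl1
  have t1 : Tendsto (fun n => Log (1 + app Log l n)) atTop (𝓝 l) := by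
    rw [tendsto_iff_norm_sub_tendsto_zero]
    refine squeeze_zero (fun n => norm_nonneg _) (g := fun n => ‖l‖ * (‖l‖ / th p) ^ n)
      (fun n => ?_) ?_
    · rw [norm_sub_rev]
      exact (hs n).2
    · have := (tendsto_pow_atTop_nhds_zero_of_lt_one hr0 hr).const_mul ‖l‖
      rwa [mul_zero] at this
  have t2 : Tendsto (fun n => Log (1 + app Log l n)) atTop (𝓝 (Log (1 + d))) := by
    rw [tendsto_iff_norm_sub_tendsto_zero]
    have h6 := (tendsto_iff_norm_sub_tendsto_zero.1 hd)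
    refine h6.congr fun n => ?_
    have hn1 : ‖app Log l n‖ < 1 := (hs n).1.trans_lt hl1
    rw [← h20 _ _ (one_add_ne _ hn1) (one_add_ne _ hd1)]
    have h7 : (1 + app Log l n) / (1 + d) = 1 + (app Log l n - d) / (1 + d) := by
      field_simp [one_add_ne _ hd1]
      ring
    have h8 : ‖(app Log l n - d) / (1 + d)‖ = ‖app Log l n - d‖ := by
      rw [norm_div, nrm_one_add _ hd1, div_one]
    have h9 : ‖app Log l n - d‖ ≤ ‖l‖ := by
      rw [sub_eq_add_neg]
      refine (IsUltrametricDist.norm_add_le_max _ _).trans (max_le (hs n).1 ?_)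
      rw [norm_neg]
      exact hdl
    rw [h7, h4 _ (by rw [h8]; exact h9.trans_lt hl), h8]
  exact tendsto_nhds_unique t2 t1

/-- Row LGR. -/
theorem lgr (thb : THBStmt) (lgb : LgbStmt) : LgrStmt := by
  intro p hp hp5 K _ _ _ _ hE Log hL x hx hlx
  obtain ⟨-, b2, b3, b4, -⟩ := thb p hp hp5
  obtain ⟨⟨-, -⟩, h20, -, h4, -, -, h7⟩ := lgb p hp hp5 K hE Log hL
  have hthp : (p : ℝ)⁻¹ < th p := b4.trans_le (pow_le_of_le_one b2.le b3.le (by norm_num))
  obtain ⟨d, hdl, hd⟩ := ex_log hp hp5 thb K hE Log hL h4 h20 (Log (1 + x)) hlx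
  have hdn : ‖d‖ = ‖Log (1 + x)‖ := by
    rw [← hd]
    exact (h4 d (hdl.trans_lt hlx)).symm
  have hd1 : ‖d‖ < 1 := hdl.trans_lt (hlx.trans b3)
  have hdne := one_add_ne d hd1
  have hxne := one_add_ne x hx
  set u : K := (1 + x) / (1 + d) with hu
  have hune : u ≠ 0 := div_ne_zero hxne hdne
  have hux : 1 + x = u * (1 + d) := by rw [hu, div_mul_cancel₀ _ hdne]
  have hu1 : ‖u - 1‖ < 1 := by
    have h8 : u - 1 = (x - d) / (1 + d) := by
      rw [hu, div_sub_one hdne]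
      congr 1
      ring
    rw [h8, norm_div, nrm_one_add d hd1, div_one, sub_eq_add_neg]
    refine (IsUltrametricDist.norm_add_le_max _ _).trans_lt (max_lt hx ?_)
    rw [norm_neg]
    exact hd1
  have hlu : Log u = 0 := by
    rw [hu, h20 _ _ hxne hdne, hd, sub_self]
  obtain ⟨N, hN⟩ := exists_pow_lt_of_lt_one b2 hu1
  have h9 : ‖u - 1‖ ^ (p ^ N) < th p :=
    (pow_le_pow_of_le_one (norm_nonneg _) hu1.le (Nat.lt_pow_self hp.one_lt).le).trans_lt hN
  have h10 : ‖u ^ (p ^ N) - 1‖ < th p := by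
    have := h7 (u - 1) N hu1
    rw [add_sub_cancel] at this
    exact this.trans_lt (max_lt h9 hthp)
  have h11 : u ^ (p ^ N) = 1 := by
    have h12 := h4 _ h10
    rw [add_sub_cancel, log_npow Log hL u hune, hlu, mul_zero, norm_zero] at h12
    exact sub_eq_zero.1 (norm_eq_zero.1 h12.symm)
  refine ⟨u, d, ?_, hux, hdn⟩
  obtain ⟨m, -, hm⟩ := (Nat.dvd_prime_pow hp).1 (orderOf_dvd_of_pow_eq_one h11)
  rcases m with _ | k
  · left
    rw [pow_zero, orderOf_eq_one_iff] at hm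
    exact hm
  · right
    refine ⟨k, ?_⟩
    rw [← hm]
    exact IsPrimitiveRoot.orderOf u

end

end Pool.Agent.ZPK.H45
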