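import Pool.Agent.ZPK.StmtsR2

/-!
# Squad ZPK (MP_6e1a06_nt), row SYS (helper45): the system in the missing case.
-/

set_option autoImplicit false

namespace Pool.Agent.ZPK.H45

open Pool.Agent.ZPT Pool.Agent.ZP3 Pool.Agent.ZPK

noncomputable section

theorem rh_pow (p E : ℕ) (hE : 1 ≤ E) (hp : 0 < p) : rh p E ^ (2 * E) = (p : ℝ)⁻¹ := by
  have hp0 : (0 : ℝ) ≤ p := by positivity
  have hE0 : (E : ℝ) ≠ 0 := by
    have : E ≠ 0 := by omega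
    exact_mod_cast this
  rw [rh, ← Real.rpow_natCast, ← Real.rpow_mul hp0]
  have : -(1 : ℝ) / (2 * (E : ℝ)) * ((2 * E : ℕ) : ℝ) = -1 := by
    push_cast
    field_simp
  rw [this, Real.rpow_neg_one]

/-- `(rh/th²) ^ p < p ^ (-E)` -/
theorem rho_pow {p E : ℕ} (hp : p.Prime) (hE : 1 ≤ E) (hpE : 1000 * (E + 1) ^ 2 < p)
    (thb : THBStmt) (num : NumStmt) :
    0 < rh p E / th p ^ 2 ∧ (rh p E / th p ^ 2) ^ p < ((p : ℝ)⁻¹) ^ E ∧
      (p : ℝ)⁻¹ < rh p E / th p ^ 2 := by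
  have hp5 : 5 ≤ p := by nlinarith
  obtain ⟨-, h2, h3, -, -⟩ := thb p hp hp5
  obtain ⟨n1, n2, n3, -⟩ := num p E hp hE hpE
  have hth2 : 0 < th p ^ 2 := by positivity
  have hr0 : 0 < rh p E / th p ^ 2 := by positivity
  have hrh1 : rh p E < 1 := n3.trans_le (pow_le_one₀ h2.le h3.le)
  have h10 : (rh p E / th p ^ 2) ^ 10 < rh p E ^ 9 := by
    rw [div_pow, ← pow_mul, div_lt_iff₀ (by positivity)]
    have : rh p E ^ 10 = rh p E ^ 9 * rh p E := by ring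
    rw [this]
    exact mul_lt_mul_of_pos_left n3 (by positivity)
  have hr1 : rh p E / th p ^ 2 < 1 := by
    by_contra hc
    rw [not_lt] at hc
    have := one_le_pow₀ hc (n := 10)
    have h9 : rh p E ^ 9 ≤ 1 := pow_le_one₀ n2.le hrh1.le
    linarith
  refine ⟨hr0, ?_, ?_⟩
  · obtain ⟨k, hk⟩ : ∃ k, k = p / 10 := ⟨_, rfl⟩
    have hk1 : 10 * k ≤ p := by omega
    have hk2 : 2 * E * E ≤ 9 * k := by
      have h4 : p < 10 * k + 10 := by omega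
      nlinarith
    have hk0 : k ≠ 0 := by
      have : 1000 ≤ p := by nlinarith
      omega
    calc (rh p E / th p ^ 2) ^ p ≤ (rh p E / th p ^ 2) ^ (10 * k) :=
          pow_le_pow_of_le_one hr0.le hr1.le hk1
      _ = ((rh p E / th p ^ 2) ^ 10) ^ k := by rw [pow_mul]
      _ < (rh p E ^ 9) ^ k := pow_lt_pow_left₀ h10 (by positivity) hk0
      _ = rh p E ^ (9 * k) := by rw [← pow_mul]
      _ ≤ rh p E ^ (2 * E * E) := pow_le_pow_of_le_one n2.le hrh1.le hk2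
      _ = ((p : ℝ)⁻¹) ^ E := by rw [pow_mul, rh_pow p E hE hp.pos]
  · refine n1.trans_lt ?_
    rw [lt_div_iff₀ hth2]
    have : th p ^ 2 < 1 := pow_lt_one₀ h2.le h3 (by norm_num)
    calc rh p E * th p ^ 2 < rh p E * 1 := mul_lt_mul_of_pos_left this n2
      _ = rh p E := mul_one _

/-- Row SYS. -/
theorem sys (thb : THBStmt) (num : NumStmt) (bin : BinStmt) (sya : SyaStmt) (syb : SybStmt) :
    SysStmt := by
  intro p E hp hE hpE K _ _ _ _ _ hExt Log hLog L hL s e₁ e₂ e' m β t a₁ a₂ F₁ F₂ n₁ n₂ g₁ g₂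
    l₁ l₂ G₁ G₂ hS
  obtain ⟨c₁, hc₁L, hc₁, hA⟩ := sya p E hp hE hpE K hExt Log hLog L hL s e₁ e₂ e' m β t a₁ a₂
    F₁ F₂ n₁ n₂ g₁ g₂ l₁ l₂ G₁ G₂ hS
  obtain ⟨ζ, hζ, c₂, hc₂L, hc₂, hB, hw⟩ := syb p E hp hE hpE K hExt Log hLog L hL s e₁ e₂ e' m β
    t a₁ a₂ F₁ F₂ n₁ n₂ g₁ g₂ l₁ l₂ G₁ G₂ hS
  obtain ⟨hr0, hr1, hr2⟩ := rho_pow hp hE hpE thb num
  refine ⟨ζ, hζ, c₁, hc₁L, c₂, hc₂L, hc₁, ?_⟩
  have hp1 : (1 : ℝ) < p := by exact_mod_cast hp.one_lt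
  have hp0 : (0 : ℝ) < p := by linarith
  have hpi : 0 < (p : ℝ)⁻¹ := by positivity
  have hpi1 : (p : ℝ)⁻¹ ≤ 1 := inv_le_one_of_one_le₀ hp1.le
  -- norms of `p` and `t`
  have hnp : ‖(p : K)‖ = (p : ℝ)⁻¹ := by
    have : Fact p.Prime := ⟨hp⟩
    have h := hExt (p : ℚ)
    rw [padicNorm.padicNorm_p_of_prime] at h
    push_cast at h
    exact h
  have htn := hS.r₁.tn
  have hs0 : (0 : ℝ) < (s : ℝ) := by exact_mod_cast hS.r₁.s0
  have ht0 : 0 < ‖t‖ := by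
    rw [htn]
    exact Real.rpow_pos_of_pos hp0 _
  have hsR : ((m : ℝ) + e' * (p : ℝ) ^ β) * (s : ℝ) = (p : ℝ) ^ β := by exact_mod_cast hS.hs
  have hP0 : (0 : ℝ) < (p : ℝ) ^ β := by positivity
  have he'1 : (1 : ℝ) ≤ e' := by exact_mod_cast hS.he'.1
  have hm0 : (0 : ℝ) ≤ m := by positivity
  have hs1 : (s : ℝ) ≤ 1 := by
    by_contra hc
    rw [not_le] at hc
    have h1 : (p : ℝ) ^ β ≤ (m : ℝ) + e' * (p : ℝ) ^ β := by nlinarith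
    have h2 : (m : ℝ) + e' * (p : ℝ) ^ β < ((m : ℝ) + e' * (p : ℝ) ^ β) * (s : ℝ) :=
      lt_mul_of_one_lt_right (by linarith) hc
    linarith
  have htp : (p : ℝ)⁻¹ ≤ ‖t‖ := by
    rw [htn, ← Real.rpow_neg_one]
    exact Real.rpow_le_rpow_of_exponent_le hp1.le (by linarith)
  have htm : ((p : ℝ)⁻¹) ^ E ≤ ‖t‖ ^ m :=
    (pow_le_pow_of_le_one hpi.le hpi1 hS.hm.2).trans (pow_le_pow_left₀ hpi.le htp m)
  have hF3 : (rh p E / th p ^ 2) ^ p < ‖t‖ ^ m := hr1.trans_le htm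
  -- the norm of `w`
  obtain ⟨x, hx⟩ : ∃ x : ℝ, x = ‖(p : K) / t ^ e'‖ := ⟨_, rfl⟩
  have hxe : x = (p : ℝ)⁻¹ / ‖t‖ ^ e' := by rw [hx, norm_div, hnp, norm_pow]
  have hx0 : 0 < x := by rw [hxe]; positivity
  have hx1 : x < 1 := by rw [hx]; exact hS.hw.2
  have htQ : ‖t‖ ^ (m + e' * p ^ β) = ((p : ℝ)⁻¹) ^ (p ^ β) := by
    rw [htn, ← Real.rpow_natCast, ← Real.rpow_mul hp0.le, ← Real.rpow_neg_one,
      ← Real.rpow_natCast, ← Real.rpow_mul hp0.le]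
    congr 1
    push_cast
    linarith
  have hxP : x ^ (p ^ β) = ‖t‖ ^ m := by
    have h1 : x ^ (p ^ β) * ‖t‖ ^ (e' * p ^ β) = ‖t‖ ^ m * ‖t‖ ^ (e' * p ^ β) := by
      rw [← pow_add, htQ, pow_mul, ← mul_pow, hxe, div_mul_cancel₀]
      positivity
    exact mul_right_cancel₀ (by positivity) h1
  obtain ⟨b, hb⟩ : ∃ b, β = b + 1 := ⟨β - 1, by have := hS.hb; omega⟩
  subst hb
  have hxb : (x ^ (p ^ b)) ^ p = ‖t‖ ^ m := by
    rw [← pow_mul, ← pow_succ, hxP]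
  have hrx : rh p E / th p ^ 2 < x ^ (p ^ b) := by
    refine lt_of_pow_lt_pow_left₀ p (by positivity) ?_
    rw [hxb]
    exact hF3
  -- the binomial
  obtain ⟨Y, hY⟩ : ∃ Y : K, Y = n₁ * g₂ / (n₂ * g₁) := ⟨_, rfl⟩
  rw [← hY] at hA hB hw
  have hyx : ‖Y - 1‖ = x := by rw [hw, hx]
  have hbin := bin p hp K hExt (Y - 1) (b + 1) (by rw [hyx]; exact hx0) (by rw [hyx]; exact hx1)
    (by omega) (by
      rcases Nat.eq_zero_or_pos b with h0 | h0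
      · left
        omega
      · right
        rw [hyx]
        refine hr2.trans (hrx.trans_le ?_)
        refine pow_le_pow_of_le_one hx0.le hx1.le ?_
        obtain ⟨c, rfl⟩ : ∃ c, b = c + 1 := ⟨b - 1, by omega⟩
        have h1 : c + 1 + 1 - 2 = c := by omega
        rw [h1, pow_succ]
        exact Nat.mul_le_mul_left _ (by omega))
  rw [hyx, Nat.add_sub_cancel, add_sub_cancel] at hbin
  -- `G₂`
  have hG2 : ‖G₂‖ = 1 := by
    have h1 : G₂ = 1 + (G₂ - 1) := by ring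
    have h2 := hS.hG.2.1
    rw [h1, IsUltrametricDist.norm_add_eq_max_of_norm_ne_norm (by rw [norm_one]; exact h2.ne'),
      norm_one, max_eq_left h2.le]
  have hG20 : G₂ ≠ 0 := by
    intro h
    rw [h, norm_zero] at hG2
    exact zero_ne_one hG2
  obtain ⟨S, hSd⟩ : ∃ S : K, S = Y ^ (p ^ (b + 1)) - 1 - (Y - 1) ^ (p ^ (b + 1)) := ⟨_, rfl⟩
  rw [← hSd] at hbin
  obtain ⟨r, hr⟩ : ∃ r : K, r = G₂ * (Y ^ (p ^ (b + 1)) - (1 + c₁) * G₁ / G₂) -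
      G₂ * ((Y - 1) ^ (p ^ (b + 1)) - ζ * (1 + c₂) * t ^ m / G₂) := ⟨_, rfl⟩
  have hrn : ‖r‖ ≤ rh p E / th p ^ 2 * (p : ℝ)⁻¹ := by
    rw [hr, sub_eq_add_neg]
    refine (IsUltrametricDist.norm_add_le_max _ _).trans (max_le ?_ ?_)
    · rw [norm_mul, hG2, one_mul]
      exact hA
    · rw [norm_neg, norm_mul, hG2, one_mul]
      exact hB
  have hX : (1 + c₁) * G₁ - G₂ - ζ * (1 + c₂) * t ^ m = G₂ * S + -r := by
    rw [hr, hSd]
    field_simp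
    ring
  have hGS : ‖G₂ * S‖ = (p : ℝ)⁻¹ * x ^ (p ^ b) := by rw [norm_mul, hG2, one_mul, hbin]
  have hlt : ‖-r‖ < ‖G₂ * S‖ := by
    rw [norm_neg, hGS]
    refine hrn.trans_lt ?_
    rw [mul_comm]
    exact mul_lt_mul_of_pos_left hrx hpi
  rw [hX, IsUltrametricDist.norm_add_eq_max_of_norm_ne_norm hlt.ne', max_eq_left hlt.le, hGS,
    mul_pow, hxb]

end

end Pool.Agent.ZPK.H45
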